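import Mathlib

/-!
# The coefficients of a product of linear factors
-/

set_option autoImplicit false

namespace Pool.Agent.LLead.Coef

open Finset

/-- the coefficient of degree `n` -/
noncomputable def es (S : Finset ℕ) (x : ℕ → ℝ) (n : ℕ) : ℝ :=
  ∑ T ∈ S.powerset with T.card = n, ∏ p ∈ T, x p

lemma norm_factor_sq (w : ℂ) (hw : ‖w‖ = 1) (t : ℝ) :
    ‖1 + w * (t : ℂ)‖ ^ 2 ≤ Real.exp (2 * t * w.re + t ^ 2) := by
  have h1 : ‖1 + w * (t : ℂ)‖ ^ 2 = 1 + 2 * t * w.re + t ^ 2 := by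
    rw [← Complex.normSq_eq_norm_sq, Complex.normSq_apply]
    have h2 : w.re * w.re + w.im * w.im = 1 := by
      have := Complex.normSq_apply w
      rw [Complex.normSq_eq_norm_sq, hw] at this
      linarith
    simp only [Complex.add_re, Complex.one_re, Complex.mul_re, Complex.ofReal_re, Complex.ofReal_im,
      Complex.add_im, Complex.one_im, Complex.mul_im]
    nlinarith [h2]
  rw [h1]
  have := Real.add_one_le_exp (2 * t * w.re + t ^ 2)
  linarith

lemma norm_prod (S : Finset ℕ) (x : ℕ → ℝ) (w : ℂ) (hw : ‖w‖ = 1) :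
    ‖∏ p ∈ S, (1 + w * (x p : ℂ))‖ ≤ Real.exp (|∑ p ∈ S, x p| + ∑ p ∈ S, x p ^ 2) := by
  have h1 : ‖∏ p ∈ S, (1 + w * (x p : ℂ))‖ ^ 2 ≤
      Real.exp (2 * |∑ p ∈ S, x p| + ∑ p ∈ S, x p ^ 2) := by
    rw [_root_.norm_prod, ← Finset.prod_pow]
    calc ∏ p ∈ S, ‖1 + w * (x p : ℂ)‖ ^ 2
        ≤ ∏ p ∈ S, Real.exp (2 * x p * w.re + x p ^ 2) :=
          Finset.prod_le_prod (fun _ _ => by positivity) fun p _ => norm_factor_sq w hw (x p)
      _ = Real.exp (∑ p ∈ S, (2 * x p * w.re + x p ^ 2)) := by rw [Real.exp_sum]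
      _ ≤ _ := by
          apply Real.exp_le_exp.2
          rw [Finset.sum_add_distrib]
          have h3 : ∑ p ∈ S, 2 * x p * w.re = 2 * (∑ p ∈ S, x p) * w.re := by
            rw [Finset.mul_sum, Finset.sum_mul]
          rw [h3]
          have h4 : |w.re| ≤ 1 := by
            have := Complex.abs_re_le_norm w
            rw [hw] at this; exact this
          have h5 : 2 * (∑ p ∈ S, x p) * w.re ≤ 2 * |∑ p ∈ S, x p| := by
            calc 2 * (∑ p ∈ S, x p) * w.re ≤ |2 * (∑ p ∈ S, x p) * w.re| := le_abs_self _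
              _ = 2 * |∑ p ∈ S, x p| * |w.re| := by
                  rw [abs_mul, abs_mul, abs_of_pos (by norm_num : (0:ℝ) < 2)]
              _ ≤ 2 * |∑ p ∈ S, x p| * 1 := by gcongr
              _ = _ := by ring
          linarith
  have h2 : 0 ≤ ∑ p ∈ S, x p ^ 2 := Finset.sum_nonneg fun _ _ => sq_nonneg _
  have h3 : Real.exp (2 * |∑ p ∈ S, x p| + ∑ p ∈ S, x p ^ 2) ≤
      Real.exp (|∑ p ∈ S, x p| + ∑ p ∈ S, x p ^ 2) ^ 2 := by
    rw [← Real.exp_nat_mul]
    apply Real.exp_le_exp.2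
    push_cast
    linarith
  exact (sq_le_sq₀ (norm_nonneg _) (Real.exp_pos _).le).1 (h1.trans h3)

lemma sum_roots (M : ℕ) (a : ℂ) (haM : a ^ M = 1) (ha : a ≠ 1) :
    ∑ j ∈ range M, a ^ j = 0 := by
  have := geom_sum_eq ha M
  rw [this, haM, sub_self, zero_div]

lemma es_le (S : Finset ℕ) (x : ℕ → ℝ) (n : ℕ) :
    |es S x n| ≤ Real.exp (|∑ p ∈ S, x p| + ∑ p ∈ S, x p ^ 2) := by
  rcases Nat.lt_or_ge S.card n with hn | hn
  · have : es S x n = 0 := by
      unfold es
      rw [Finset.filter_false_of_mem]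
      · simp
      · intro T hT h
        have := Finset.card_le_card (Finset.mem_powerset.1 hT)
        omega
    rw [this, abs_zero]
    positivity
  · set M := S.card + 1 with hM
    obtain ⟨ζ, hζ⟩ : ∃ ζ : ℂ, IsPrimitiveRoot ζ M :=
      ⟨_, Complex.isPrimitiveRoot_exp M (by omega)⟩
    have hζ1 : ‖ζ‖ = 1 := hζ.norm'_eq_one (by omega)
    have hζ0 : ζ ≠ 0 := by
      intro h; rw [h, norm_zero] at hζ1; norm_num at hζ1
    have key : (M : ℂ) * (es S x n : ℂ) =
        ∑ j ∈ range M, (ζ ^ (j * n))⁻¹ * ∏ p ∈ S, (1 + ζ ^ j * (x p : ℂ)) := by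
      have h1 : ∀ j, ∏ p ∈ S, (1 + ζ ^ j * (x p : ℂ)) =
          ∑ T ∈ S.powerset, ζ ^ (j * T.card) * ((∏ p ∈ T, x p : ℝ) : ℂ) := by
        intro j
        rw [Finset.prod_one_add]
        apply Finset.sum_congr rfl
        intro T _
        rw [Finset.prod_mul_distrib, Finset.prod_const, ← pow_mul, Complex.ofReal_prod]
      simp_rw [h1, Finset.mul_sum]
      rw [Finset.sum_comm]
      have h2 : ∀ T ∈ S.powerset,
          ∑ j ∈ range M, (ζ ^ (j * n))⁻¹ * (ζ ^ (j * T.card) * ((∏ p ∈ T, x p : ℝ) : ℂ)) =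
            if T.card = n then (M : ℂ) * ((∏ p ∈ T, x p : ℝ) : ℂ) else 0 := by
        intro T hT
        have hc := Finset.card_le_card (Finset.mem_powerset.1 hT)
        have h3 : ∀ j, (ζ ^ (j * n))⁻¹ * (ζ ^ (j * T.card) * ((∏ p ∈ T, x p : ℝ) : ℂ)) =
            ((ζ ^ n)⁻¹ * ζ ^ T.card) ^ j * ((∏ p ∈ T, x p : ℝ) : ℂ) := by
          intro j
          rw [mul_pow, inv_pow, ← pow_mul, ← pow_mul, mul_comm n j, mul_comm T.card j]
          ring
        simp_rw [h3]
        rw [← Finset.sum_mul]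
        split_ifs with h
        · have : (ζ ^ n)⁻¹ * ζ ^ T.card = 1 := by
            rw [h]; exact inv_mul_cancel₀ (pow_ne_zero _ hζ0)
          rw [this]; simp
        · rw [sum_roots M _ _ _, zero_mul]
          · rw [mul_pow, inv_pow, ← pow_mul, ← pow_mul, mul_comm n M, mul_comm T.card M, pow_mul,
              pow_mul, hζ.pow_eq_one]
            simp
          · intro h4
            have h5 : ζ ^ T.card = ζ ^ n := by
              have := congrArg (fun u => ζ ^ n * u) h4
              simpa [mul_inv_cancel₀ (pow_ne_zero n hζ0), ← mul_assoc] using this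
            exact h (hζ.pow_inj (by omega) (by omega) h5)
      rw [Finset.sum_congr rfl h2, ← Finset.sum_filter]
      unfold es
      rw [Complex.ofReal_sum, Finset.mul_sum]
    have h6 : (M : ℝ) * |es S x n| ≤
        M * Real.exp (|∑ p ∈ S, x p| + ∑ p ∈ S, x p ^ 2) := by
      have h7 : ‖(M : ℂ) * (es S x n : ℂ)‖ = M * |es S x n| := by
        rw [norm_mul, Complex.norm_natCast, Complex.norm_real, Real.norm_eq_abs]
      rw [← h7, key]
      refine (norm_sum_le _ _).trans ?_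
      calc ∑ j ∈ range M, ‖(ζ ^ (j * n))⁻¹ * ∏ p ∈ S, (1 + ζ ^ j * (x p : ℂ))‖
          ≤ ∑ _j ∈ range M, Real.exp (|∑ p ∈ S, x p| + ∑ p ∈ S, x p ^ 2) := by
            apply Finset.sum_le_sum
            intro j _
            rw [norm_mul, norm_inv, norm_pow, hζ1, one_pow, inv_one, one_mul]
            exact norm_prod S x _ (by rw [norm_pow, hζ1, one_pow])
        _ = _ := by rw [Finset.sum_const, Finset.card_range, nsmul_eq_mul]
    have hM0 : (0 : ℝ) < M := by positivity
    exact le_of_mul_le_mul_left h6 hM0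

theorem coef (S : Finset ℕ) (x φ : ℕ → ℝ) (N : ℕ) (h1 : ∀ n, |φ n| ≤ 1)
    (h2 : ∀ n, N < n → φ n = 0) : |∑ T ∈ S.powerset, φ T.card * ∏ p ∈ T, x p| ≤
      (N + 1) * Real.exp (|∑ p ∈ S, x p| + ∑ p ∈ S, x p ^ 2) := by
  have h3 : ∑ T ∈ S.powerset, φ T.card * ∏ p ∈ T, x p =
      ∑ n ∈ range (N + 1), φ n * es S x n := by
    have h4 : ∑ T ∈ S.powerset, φ T.card * ∏ p ∈ T, x p =
        ∑ T ∈ S.powerset with T.card ∈ range (N + 1), φ T.card * ∏ p ∈ T, x p := by
      rw [Finset.sum_filter]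
      apply Finset.sum_congr rfl
      intro T _
      split_ifs with h
      · rfl
      · rw [h2 _ (by simpa using h), zero_mul]
    rw [h4, ← Finset.sum_fiberwise_of_maps_to (g := fun T : Finset ℕ => T.card)
      (t := range (N + 1)) (fun T hT => (Finset.mem_filter.1 hT).2)]
    apply Finset.sum_congr rfl
    intro n hn
    unfold es
    rw [Finset.mul_sum, Finset.filter_filter]
    have h5 : (S.powerset.filter fun T => T.card ∈ range (N + 1) ∧ T.card = n) =
        S.powerset.filter fun T => T.card = n := by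
      apply Finset.filter_congr
      intro T _
      constructor
      · exact fun h => h.2
      · exact fun h => ⟨h ▸ hn, h⟩
    rw [h5]
    apply Finset.sum_congr rfl
    intro T hT
    rw [(Finset.mem_filter.1 hT).2]
  rw [h3]
  refine (Finset.abs_sum_le_sum_abs _ _).trans ?_
  calc ∑ n ∈ range (N + 1), |φ n * es S x n|
      ≤ ∑ _n ∈ range (N + 1), Real.exp (|∑ p ∈ S, x p| + ∑ p ∈ S, x p ^ 2) := by
        apply Finset.sum_le_sum
        intro n _
        rw [abs_mul]
        calc |φ n| * |es S x n| ≤ 1 * |es S x n| := by gcongr; exact h1 n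
          _ ≤ _ := by rw [one_mul]; exact es_le S x n
    _ = _ := by rw [Finset.sum_const, Finset.card_range, nsmul_eq_mul]; push_cast; ring

end Pool.Agent.LLead.Coef
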